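import Mathlib

set_option autoImplicit false

/-! Graphs of large girth from the unitary group of a division algebra of degree 3.
`s` is an endomorphism of order 3 of the field `E`.  The division algebra is `E(z; s)`,
`z a = s(a) z`, written as 3 x 3 matrices over `E[X]`, `X = z ^ 3`. -/

namespace Pool.Agent.Helper92.UG

open Polynomial

/-- the trace `x + s x + s (s x)` -/
def tr3 {E : Type} [Field E] (s : E →+* E) (x : E) : E := x + s x + s (s x)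

/-- the norm `x * s x * s (s x)` -/
def nm3 {E : Type} [Field E] (s : E →+* E) (x : E) : E := x * s x * s (s x)

/-- isotropic elements -/
def Iso {E : Type} [Field E] (s : E →+* E) (x : E) : Prop := x ≠ 0 ∧ tr3 s (x * x) = 0

/-- non-orthogonal elements -/
def Ind {E : Type} [Field E] (s : E →+* E) (x y : E) : Prop := tr3 s (x * y) ≠ 0

/-- the alternating form `s X * s (s Y) - s (s X) * s Y`, `X = x ^ 2`, `Y = y ^ 2` -/
def dl {E : Type} [Field E] (s : E →+* E) (x y : E) : E :=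
  s x ^ 2 * s (s y) ^ 2 - s (s x) ^ 2 * s y ^ 2

/-- the vector of conjugates -/
def vc {E : Type} [Field E] (s : E →+* E) (x : E) : Fin 3 → E := ![x, s x, s (s x)]

abbrev Mat (E : Type) [Field E] := Matrix (Fin 3) (Fin 3) E[X]

abbrev PMat (E : Type) [Field E] := Matrix (Fin 3) (Fin 3) (PowerSeries E)

/-- the matrix of `z` -/
def zM {A : Type} [CommRing A] (t : A) : Matrix (Fin 3) (Fin 3) A :=
  !![0, 1, 0; 0, 0, 1; t, 0, 0]

/-- `M` represents an element of the skew polynomial (power series) ring: `z M = s(M) z`. -/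
def Tw {A : Type} [CommRing A] (t : A) (τ : A →+* A) (M : Matrix (Fin 3) (Fin 3) A) : Prop :=
  zM t * M = M.map τ * zM t

/-- `N(x) N(y) (1 - X) γ(x, y)` -/
noncomputable def mB {E : Type} [Field E] (s : E →+* E) (x y : E) : Mat E :=
  !![C (x * y * (s (s x) ^ 2 * s y ^ 2)) - C (x * y * (s x ^ 2 * s (s y) ^ 2)) * X,
      - C (dl s x y * x * s y), - C (dl s x y * x * s (s y));
     - C (dl s x y * s x * y) * X,
      C (s x * s y * (x ^ 2 * s (s y) ^ 2)) - C (s x * s y * (s (s x) ^ 2 * y ^ 2)) * X,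
      - C (dl s x y * s x * s (s y));
     - C (dl s x y * s (s x) * y) * X, - C (dl s x y * s (s x) * s y) * X,
      C (s (s x) * s (s y) * (s x ^ 2 * y ^ 2)) - C (s (s x) * s (s y) * (x ^ 2 * s y ^ 2)) * X]

/-- `(1 - X) γ(x, y)` -/
noncomputable def mA {E : Type} [Field E] (s : E →+* E) (x y : E) : Mat E :=
  (C (nm3 s x * nm3 s y)⁻¹ : E[X]) • mB s x y

/-- the word `(1 - X)^m ∏_{j < m} γ(x_j, y_j)` -/
noncomputable def wd {E : Type} [Field E] (s : E →+* E) (x y : ℕ → E) : ℕ → Mat E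
  | 0 => 1
  | n + 1 => wd s x y n * mA s (x n) (y n)

/-- `X^c` at the entry `(i, j)` has degree `3 c + j - i`; all terms of degree `≥ d`. -/
def Fil {E : Type} [Field E] (d : ℕ) (M : Mat E) : Prop :=
  ∀ i j : Fin 3, ∀ c : ℕ, 3 * c + (j : ℕ) < d + (i : ℕ) → (M i j).coeff c = 0

/-- the same for power series -/
def FilP {E : Type} [Field E] (d : ℕ) (M : PMat E) : Prop :=
  ∀ i j : Fin 3, ∀ c : ℕ, 3 * c + (j : ℕ) < d + (i : ℕ) → PowerSeries.coeff c (M i j) = 0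

/-- conditions on the letters of a closed reduced word of length `m` -/
def Red {E : Type} [Field E] (s : E →+* E) (x y : ℕ → E) (m : ℕ) : Prop :=
  (∀ j, j < m → Iso s (x j) ∧ Iso s (y j) ∧ Ind s (x j) (y j)) ∧
  (∀ j, j + 1 < m → Ind s (y j) (x (j + 1))) ∧ Ind s (y (m - 1)) (x 0)

/-- the word `∏_{j < m} γ(x_j, y_j)` in a group -/
def gw {E Q : Type} [Group Q] (γ : E → E → Q) (x y : ℕ → E) : ℕ → Q
  | 0 => 1
  | n + 1 => gw γ x y n * γ (x n) (y n)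

/-- the word `∏_{j < m} t(a_j) t(b_j)⁻¹` in a group -/
def tw {ι Q : Type} [Group Q] (t : ι → Q) (a b : ℕ → ι) : ℕ → Q
  | 0 => 1
  | n + 1 => tw t a b n * (t (a n) * (t (b n))⁻¹)

/-- no closed non-backtracking sequences of length `≤ 2k` -/
def NB {V : Type} (G : SimpleGraph V) (k : ℕ) : Prop :=
  ∀ (L : ℕ) (v : ℕ → V), 1 ≤ L → L ≤ 2 * k → (∀ i, G.Adj (v i) (v (i + 1))) →
    (∀ i, v i ≠ v (i + 2)) → (∀ i, v (i + L) = v i) → False

/-! ### Statements of the modules -/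

/-- ALG: the identities of the matrices `mA`. -/
def ST_ALG : Prop :=
  ∀ (E : Type) [Field E] (s : E →+* E), (2 : E) ≠ 0 → (∀ x, s (s (s x)) = x) →
    (∀ x y, Iso s x → Iso s y → (mA s x y).det = (1 - X) ^ 3) ∧
    (∀ x y w, Iso s x → Iso s y → Iso s w →
      mA s x y * mA s y w = ((1 - X : E[X])) • mA s x w) ∧
    (∀ x, Iso s x → mA s x x = (1 - X : E[X]) • (1 : Mat E)) ∧
    (∀ x y, Iso s x → Iso s y → Tw (X : E[X]) (Polynomial.mapRingHom s) (mA s x y)) ∧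
    (∀ x y (i j : Fin 3), (mA s x y i j).natDegree ≤ 1) ∧
    (∀ x y (i j : Fin 3), mA s y x i j = - Polynomial.reflect 1 (mA s x y j i)) ∧
    (∀ x y, Iso s x → Iso s y → Ind s x y → ∃ κ : E, κ ≠ 0 ∧ ∀ i j : Fin 3,
      (mA s x y i j).eval 1 = κ * vc s x i * vc s y j)

/-- WORD: properties of the words. -/
def ST_WORD : Prop :=
  ∀ (E : Type) [Field E] (s : E →+* E), (2 : E) ≠ 0 → (∀ x, s (s (s x)) = x) →
    ∀ (x y : ℕ → E) (m : ℕ), 1 ≤ m → Red s x y m →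
      (wd s x y m).det = (1 - X) ^ (3 * m) ∧
      (∀ i j : Fin 3, (wd s x y m i j).natDegree ≤ m) ∧
      wd s x y m * (Matrix.of fun i j => (-1 : E[X]) ^ m * Polynomial.reflect m (wd s x y m j i)) =
        ((1 - X : E[X]) ^ (2 * m)) • (1 : Mat E) ∧
      Tw (X : E[X]) (Polynomial.mapRingHom s) (wd s x y m) ∧
      (Matrix.trace (wd s x y m)).eval 1 ≠ 0

/-- FDET: the determinant of a matrix in the filtration. -/
def ST_FDET : Prop :=
  ∀ (E : Type) [Field E] (i : ℕ) (N : Mat E), Fil i N → (X : E[X]) ^ i ∣ N.det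

/-- DOM: the reduced norm of a nonzero element is nonzero. -/
def ST_DOM : Prop :=
  ∀ (E : Type) [Field E] (s : E →+* E), (∀ x, s (s (s x)) = x) → ∀ N : Mat E,
    Tw (X : E[X]) (Polynomial.mapRingHom s) N → N.det = 0 → N = 0

/-- KEY: reduced words of length `m ≤ 2 i` are not congruent to 1. -/
def ST_KEY : Prop :=
  ∀ (E : Type) [Field E] (s : E →+* E), (2 : E) ≠ 0 → (∀ x, s (s (s x)) = x) →
    ∀ (x y : ℕ → E) (m i : ℕ), 1 ≤ m → m ≤ 2 * i → Red s x y m →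
      ¬ Fil i (wd s x y m - ((1 - X : E[X]) ^ m) • (1 : Mat E))

/-- TWP: twisted matrices over power series. -/
def ST_TWP : Prop :=
  ∀ (E : Type) [Field E] (s : E →+* E), (∀ x, s (s (s x)) = x) →
    (Tw (PowerSeries.X : PowerSeries E) (PowerSeries.map s) (1 : PMat E)) ∧
    (∀ M N : PMat E, Tw PowerSeries.X (PowerSeries.map s) M →
      Tw PowerSeries.X (PowerSeries.map s) N → Tw PowerSeries.X (PowerSeries.map s) (M * N)) ∧
    (∀ M N : PMat E, Tw PowerSeries.X (PowerSeries.map s) M → M * N = 1 →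
      Tw PowerSeries.X (PowerSeries.map s) N) ∧
    (∀ M : PMat E, Tw PowerSeries.X (PowerSeries.map s) M → FilP 0 M) ∧
    (∀ (d e : ℕ) (M N : PMat E), FilP d M → FilP e N → FilP (d + e) (M * N)) ∧
    (∀ (d : ℕ) (M : PMat E), Tw PowerSeries.X (PowerSeries.map s) M →
      (∀ j, j < d → PowerSeries.coeff (j / 3) (M 0 ⟨j % 3, Nat.mod_lt _ (by norm_num)⟩) = 0) →
      FilP d M) ∧
    (∀ M : PMat E, Tw PowerSeries.X (PowerSeries.map s) M → M.det = 1 →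
      nm3 s (PowerSeries.coeff 0 (M 0 0)) = 1) ∧
    (∀ (c : ℕ) (M : PMat E), 1 ≤ c → Tw PowerSeries.X (PowerSeries.map s) M → M.det = 1 →
      FilP (3 * c) (M - 1) → tr3 s (PowerSeries.coeff c (M 0 0)) = 0)

/-- FLD: kernel of the trace, elements of norm 1, in a field with `q^3` elements. -/
def ST_FLD : Prop :=
  ∀ (E : Type) [Field E] [Finite E] (s : E →+* E) (q : ℕ), (∀ x, s x = x ^ q) →
    Nat.card E = q ^ 3 →
    (∀ x, s (s (s x)) = x) ∧ {x : E | s x = x}.ncard ≤ q ∧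
    {x : E | tr3 s x = 0}.ncard = q ^ 2 ∧ {x : E | nm3 s x = 1}.ncard ≤ q ^ 2 + q + 1

/-- IDX: the congruence subgroup and its index. -/
def ST_IDX : Prop :=
  ∀ (E : Type) [Field E] [Finite E] (s : E →+* E) (q : ℕ), (∀ x, s x = x ^ q) →
    Nat.card E = q ^ 3 → ∀ i : ℕ, 1 ≤ i →
    ∃ Γ H : Subgroup (PMat E)ˣ,
      (∀ g, g ∈ Γ ↔ Tw PowerSeries.X (PowerSeries.map s) g.val ∧ g.val.det = 1) ∧
      (∀ g, g ∈ H ↔ g ∈ Γ ∧ FilP i (g.val - 1)) ∧
      (H.subgroupOf Γ).Normal ∧ (H.subgroupOf Γ).index ≠ 0 ∧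
      (H.subgroupOf Γ).index ≤ (q ^ 2 + q + 1) * q ^ (8 * i / 3 - 2)

/-- GRP: the finite quotient group. -/
def ST_GRP : Prop :=
  ∀ (E : Type) [Field E] [Finite E] (s : E →+* E) (q : ℕ), (2 : E) ≠ 0 → (∀ x, s x = x ^ q) →
    Nat.card E = q ^ 3 → ∀ i : ℕ, 1 ≤ i →
    ∃ (Q : Type) (_ : Group Q) (_ : Finite Q) (γ : E → E → Q),
      (∀ x y w, Iso s x → Iso s y → Iso s w → γ x y * γ y w = γ x w) ∧
      Nat.card Q ≤ (q ^ 2 + q + 1) * q ^ (8 * i / 3 - 2) ∧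
      (∀ (x y : ℕ → E) (m : ℕ), 1 ≤ m → m ≤ 2 * i → Red s x y m → gw γ x y m ≠ 1)

/-- CON: the conic has `q + 1` points, pairwise non-orthogonal. -/
def ST_CON : Prop :=
  ∀ (E : Type) [Field E] [Finite E] (s : E →+* E) (q : ℕ), (2 : E) ≠ 0 → (∀ x, s x = x ^ q) →
    Nat.card E = q ^ 3 →
    ∃ x : Fin (q + 1) → E, (∀ a, Iso s (x a)) ∧ ∀ a b, a ≠ b → Ind s (x a) (x b)

/-- GRA: the bipartite graph of a group with elements `t`. -/
def ST_GRA : Prop :=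
  ∀ (Q : Type) [Group Q] [Finite Q] (d k : ℕ) (t : Fin d → Q), 1 ≤ k →
    (∀ (a b : ℕ → Fin d) (m : ℕ), 1 ≤ m → m ≤ k → (∀ j, j < m → a j ≠ b j) →
      (∀ j, j + 1 < m → b j ≠ a (j + 1)) → b (m - 1) ≠ a 0 → tw t a b m ≠ 1) →
    ∃ G : SimpleGraph (Q ⊕ Q),
      (∀ v, (G.neighborSet v).ncard = d) ∧
      (∀ v w, G.Adj v w → v.isLeft ≠ w.isLeft) ∧ NB G k

/-- CYC: from closed non-backtracking sequences to cycles. -/
def ST_CYC : Prop :=
  ∀ (V : Type) (G : SimpleGraph V) (k : ℕ), NB G k →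
    ∀ (u : V) (w : G.Walk u u), w.IsCycle → 2 * k < w.length

/-- COPY: disjoint copies and isolated vertices. -/
def ST_COPY : Prop :=
  ∀ (V : Type) [Finite V] [Nonempty V] (G : SimpleGraph V) (k q n : ℕ),
    (∀ v : V, (G.neighborSet v).ncard = q) → NB G k → Nat.card V ≤ n →
    ∃ H : SimpleGraph (Fin n), NB H k ∧ n * q ≤ 4 * H.edgeSet.ncard

/-- FF: finite fields. -/
def ST_FF : Prop :=
  ∀ q : ℕ, IsPrimePow q → Odd q →
    ∃ (E : Type) (_ : Field E) (_ : Finite E) (s : E →+* E),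
      (∀ x, s x = x ^ q) ∧ Nat.card E = q ^ 3 ∧ (2 : E) ≠ 0

/-- REG: the regular graphs. -/
def ST_REG : Prop :=
  ∀ q i : ℕ, IsPrimePow q → Odd q → 1 ≤ i →
    ∃ (V : Type) (_ : Finite V) (_ : Nonempty V) (G : SimpleGraph V),
      Nat.card V ≤ 2 * ((q ^ 2 + q + 1) * q ^ (8 * i / 3 - 2)) ∧
      (∀ v : V, (G.neighborSet v).ncard = q + 1) ∧
      (∃ c : V → Bool, ∀ v w, G.Adj v w → c v ≠ c w) ∧ NB G (2 * i)

/-- CAL: the calculation. -/
def ST_CAL : Prop :=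
  ∀ i : ℕ, 1 ≤ i → ∃ c : ℝ, 0 < c ∧ ∃ N : ℕ, ∀ n : ℕ, N ≤ n → ∃ e : ℕ, 1 ≤ e ∧
    2 * (((3 ^ e) ^ 2 + 3 ^ e + 1) * (3 ^ e) ^ (8 * i / 3 - 2)) ≤ n ∧
    c * (n : ℝ) ^ ((1 : ℝ) + 1 / ((8 * i / 3 : ℕ) : ℝ)) ≤ (n : ℝ) * (3 : ℝ) ^ e / 4

end Pool.Agent.Helper92.UG
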